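import Pool.Agent.H48.STS.Lem

/-!
MP_8923e7_nt, strings at the scale `t log p`: the positions of the four groups of intervals, and good windows.
-/

set_option autoImplicit false

namespace Pool.Agent.H48.STS

open Finset Pool.Agent.H48.ST

/-- two strings of `K` consecutive primes, in the classes `w 0` and `w 1` modulo `Q`, at the distance `u z`, up to `e z` -/
def Str (K L s Q : ℕ) (w : Fin 2 → ℕ) (u z e : ℝ) (n : ℕ) : Prop :=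
  |((Nat.nth Nat.Prime (n + 1) - Nat.nth Nat.Prime n : ℕ) : ℝ) - u * z| < e * z ∧ K ≤ n + 1 ∧ ∀ j < K,
    (Nat.nth Nat.Prime (n - j) ≡ s [MOD L] ∧ Nat.nth Nat.Prime (n - j) ≡ w 0 [MOD Q] ∧
      (Nat.nth Nat.Prime n : ℝ) - Nat.nth Nat.Prime (n - j) < e * z) ∧
    Nat.nth Nat.Prime (n + 1 + j) ≡ s [MOD L] ∧ Nat.nth Nat.Prime (n + 1 + j) ≡ w 1 [MOD Q] ∧
      (Nat.nth Nat.Prime (n + 1 + j) : ℝ) - Nat.nth Nat.Prime (n + 1) < e * z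

theorem Str.mono {K L s Q : ℕ} {w : Fin 2 → ℕ} {u z e e' : ℝ} {n : ℕ} (h : Str K L s Q w u z e n) (hz : 0 ≤ z)
    (he : e ≤ e') : Str K L s Q w u z e' n := by
  have h1 : e * z ≤ e' * z := mul_le_mul_of_nonneg_right he hz
  obtain ⟨h2, h3, h4⟩ := h
  refine ⟨h2.trans_le h1, h3, fun j hj => ?_⟩
  obtain ⟨⟨a1, a2, a3⟩, a4, a5, a6⟩ := h4 j hj
  exact ⟨⟨a1, a2, a3.trans_le h1⟩, a4, a5, a6.trans_le h1⟩

/-- the primes near number `n` in two windows -/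
def Nd (K L s Q : ℕ) (w : Fin 2 → ℕ) (a0 b0 a1 b1 : ℝ) (n : ℕ) : Prop :=
  K ≤ n + 1 ∧ ∀ j < K,
    (a0 ≤ Nat.nth Nat.Prime (n - j) ∧ (Nat.nth Nat.Prime (n - j) : ℝ) ≤ b0 ∧
      Nat.nth Nat.Prime (n - j) ≡ s [MOD L] ∧ Nat.nth Nat.Prime (n - j) ≡ w 0 [MOD Q]) ∧
    (a1 ≤ Nat.nth Nat.Prime (n + 1 + j) ∧ (Nat.nth Nat.Prime (n + 1 + j) : ℝ) ≤ b1 ∧
      Nat.nth Nat.Prime (n + 1 + j) ≡ s [MOD L] ∧ Nat.nth Nat.Prime (n + 1 + j) ≡ w 1 [MOD Q])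

theorem str_of_nd {K L s Q : ℕ} {w : Fin 2 → ℕ} {t y e u a0 b0 a1 b1 : ℝ} {n : ℕ} (hK : 1 ≤ K) (hty : 0 < t * y)
    (he : 0 < e) (he1 : e ≤ 1) (hu : 0 ≤ u) (hu1 : u ≤ 1) (ha1 : a1 = a0 + max u (e / 4) * (t * y))
    (hb0 : b0 ≤ a0 + e / 16 * (t * y)) (hb1 : b1 ≤ a1 + e / 16 * (t * y)) (ht : 0 < t)
    (hlog : |Real.log (Nat.nth Nat.Prime n) - y| ≤ e / 4 * y) (h : Nd K L s Q w a0 b0 a1 b1 n) :
    Str K L s Q w u (t * Real.log (Nat.nth Nat.Prime n)) e n := by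
  obtain ⟨h1, h2⟩ := h
  generalize hz : t * Real.log (Nat.nth Nat.Prime n) = z
  generalize hv : t * y = v at *
  have hzv : |z - v| ≤ e / 4 * v := by
    rw [← hz, ← hv, ← mul_sub, abs_mul, abs_of_pos ht]
    calc t * |Real.log (Nat.nth Nat.Prime n) - y| ≤ t * (e / 4 * y) := mul_le_mul_of_nonneg_left hlog ht.le
      _ = e / 4 * (t * y) := by ring
  rw [abs_le] at hzv
  obtain ⟨z1, z2⟩ := hzv
  have hU1 : u ≤ max u (e / 4) := le_max_left _ _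
  have hU2 : max u (e / 4) ≤ u + e / 4 := max_le (by linarith) (by linarith)
  generalize max u (e / 4) = U at *
  have k1 : u * v ≤ U * v := mul_le_mul_of_nonneg_right hU1 hty.le
  have k2 : U * v ≤ (u + e / 4) * v := mul_le_mul_of_nonneg_right hU2 hty.le
  have k3 : u * z ≤ u * (v + e / 4 * v) := mul_le_mul_of_nonneg_left (by linarith) hu
  have k4 : u * (v - e / 4 * v) ≤ u * z := mul_le_mul_of_nonneg_left (by linarith) hu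
  have k5 : u * (e / 4 * v) ≤ 1 * (e / 4 * v) := mul_le_mul_of_nonneg_right hu1 (by positivity)
  have k6 : e * (v - e / 4 * v) ≤ e * z := mul_le_mul_of_nonneg_left (by linarith) he.le
  have k7 : e * (e / 4 * v) ≤ 1 * (e / 4 * v) := mul_le_mul_of_nonneg_right he1 (by positivity)
  have k8 : 0 < e * v := mul_pos he hty
  have g := h2 0 (by omega)
  rw [Nat.sub_zero, Nat.add_zero] at g
  obtain ⟨⟨g1, g2, -, -⟩, g3, g4, -, -⟩ := g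
  have hle : Nat.nth Nat.Prime n ≤ Nat.nth Nat.Prime (n + 1) :=
    (Nat.nth_monotone Nat.infinite_setOfPred_prime) (Nat.le_succ n)
  refine ⟨?_, h1, fun j hj => ?_⟩
  · rw [Nat.cast_sub hle, abs_lt]
    constructor <;> nlinarith
  · obtain ⟨⟨a1, a2, a3, a4⟩, a5, a6, a7, a8⟩ := h2 j hj
    refine ⟨⟨a3, a4, ?_⟩, a7, a8, ?_⟩ <;> nlinarith

/-- the position of a group -/
def Pz (t0 t1 U0 U1 g : ℝ) (a b : Fin 2) : ℝ := g + ((a : ℕ) : ℝ) * (U1 * t1) + ((b : ℕ) : ℝ) * (U0 * t0)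

/-- the left end of an interval -/
def lo (t0 t1 U0 U1 g : ℝ) {q : ℕ} (d : Fin 2 × Fin 2 × Fin q) : ℝ :=
  Pz t0 t1 U0 U1 g d.1 d.2.1 + 2 * ((d.2.2 : ℕ) : ℝ) * g

/-- the right end of an interval -/
def hi (t0 t1 U0 U1 g : ℝ) {q : ℕ} (d : Fin 2 × Fin 2 × Fin q) : ℝ :=
  Pz t0 t1 U0 U1 g d.1 d.2.1 + 2 * ((d.2.2 : ℕ) : ℝ) * g + g

section
variable {t0 t1 U0 U1 g e : ℝ} {q : ℕ}

theorem lo_ge (hg : 0 < g) (d : Fin 2 × Fin 2 × Fin q) : Pz t0 t1 U0 U1 g d.1 d.2.1 ≤ lo t0 t1 U0 U1 g d := by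
  unfold lo
  have : (0 : ℝ) ≤ 2 * ((d.2.2 : ℕ) : ℝ) * g := by positivity
  linarith

theorem hi_le (hg : 0 < g) (hq : 2 * (q : ℝ) * g ≤ e / 16 * t0) (d : Fin 2 × Fin 2 × Fin q) :
    hi t0 t1 U0 U1 g d ≤ Pz t0 t1 U0 U1 g d.1 d.2.1 + e / 16 * t0 := by
  unfold hi
  have h1 : ((d.2.2 : ℕ) : ℝ) + 1 ≤ q := by exact_mod_cast d.2.2.2
  have h2 : (((d.2.2 : ℕ) : ℝ) + 1) * (2 * g) ≤ q * (2 * g) := mul_le_mul_of_nonneg_right h1 (by positivity)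
  linarith

theorem Pz_b (ht0 : 0 < t0) (hU0 : e / 4 ≤ U0) (he : 0 < e) (a : Fin 2) :
    Pz t0 t1 U0 U1 g a 0 + e / 16 * t0 < Pz t0 t1 U0 U1 g a 1 := by
  unfold Pz
  have h1 : e / 4 * t0 ≤ U0 * t0 := mul_le_mul_of_nonneg_right hU0 ht0.le
  have h2 : 0 < e * t0 := mul_pos he ht0
  simp only [Fin.val_zero, Fin.val_one, Nat.cast_zero, Nat.cast_one]
  linarith

theorem Pz_a (ht0 : 0 < t0) (hU0 : U0 ≤ 1) (hU1 : e / 4 ≤ U1) (he : 0 < e) (he1 : e ≤ 1)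
    (ht : 32 / e * t0 ≤ t1) (b b' : Fin 2) (hU0' : 0 ≤ U0) :
    Pz t0 t1 U0 U1 g 0 b + e / 16 * t0 < Pz t0 t1 U0 U1 g 1 b' := by
  unfold Pz
  have h0 : 32 * t0 ≤ e * t1 := by
    rw [div_mul_eq_mul_div, div_le_iff₀ he] at ht
    linarith
  have ht1 : 0 < t1 := by
    by_contra hcon
    have := mul_nonneg he.le (le_of_not_gt hcon |> fun h => (neg_nonneg.2 h))
    nlinarith
  have h1 : e / 4 * t1 ≤ U1 * t1 := mul_le_mul_of_nonneg_right hU1 ht1.le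
  have h2 : 0 < e * t0 := mul_pos he ht0
  have h3 : ((b : ℕ) : ℝ) ≤ 1 := by
    have : (b : ℕ) ≤ 1 := Nat.lt_succ_iff.1 b.2
    exact_mod_cast this
  have h4 : (0 : ℝ) ≤ ((b' : ℕ) : ℝ) := Nat.cast_nonneg _
  have h5 : 0 ≤ U0 * t0 := mul_nonneg hU0' ht0.le
  have h6 : U0 * t0 ≤ 1 * t0 := mul_le_mul_of_nonneg_right hU0 ht0.le
  have h7 : ((b : ℕ) : ℝ) * (U0 * t0) ≤ 1 * (U0 * t0) := mul_le_mul_of_nonneg_right h3 h5
  have h8 : 0 ≤ ((b' : ℕ) : ℝ) * (U0 * t0) := mul_nonneg h4 h5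
  have h9 : e * t0 ≤ 1 * t0 := mul_le_mul_of_nonneg_right he1 ht0.le
  simp only [Fin.val_zero, Fin.val_one, Nat.cast_zero, Nat.cast_one]
  linarith

end

end Pool.Agent.H48.STS
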