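import Pool.Agent.H48.STS.Lem

/-!
MP_8923e7_nt, strings at the scale `t log p`: from `k + 1` windows to the indices of the primes.
-/

set_option autoImplicit false

namespace Pool.Agent.H48.STS

open Finset Pool.Agent.H48.ST

theorem win_step {k : ℕ} {lo hi : Fin (k + 1) → ℝ} (h1 : ∀ j, lo j ≤ hi j)
    (h2 : ∀ j : Fin k, hi j.castSucc < lo j.succ) {i j : Fin (k + 1)} (hij : i < j) : hi i < lo j := by
  have hmono : StrictMono lo := Fin.strictMono_iff_lt_succ.2 fun j => (h1 _).trans_lt (h2 j)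
  have hi' : i.val < k := lt_of_lt_of_le hij (Nat.lt_succ_iff.1 j.2)
  have h3 := h2 ⟨i.val, hi'⟩
  have h4 : lo (Fin.succ ⟨i.val, hi'⟩) ≤ lo j := hmono.monotone (by
    rw [Fin.le_def]
    simpa using hij)
  have h5 : (Fin.castSucc ⟨i.val, hi'⟩ : Fin (k + 1)) = i := rfl
  rw [h5] at h3
  exact h3.trans_le h4

theorem strings_windows {k K L s Q : ℕ} (hK : 1 ≤ K) (w : Fin (k + 1) → ℕ) (lo hi : Fin (k + 1) → ℝ)
    (h0 : ∀ j, 0 ≤ lo j) (h1 : ∀ j, lo j ≤ hi j) (h2 : ∀ j : Fin k, hi j.castSucc < lo j.succ)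
    (hin : ∀ p : ℕ, p.Prime → lo 0 ≤ p → (p : ℝ) ≤ hi (Fin.last k) →
      ∃ j, lo j ≤ p ∧ (p : ℝ) ≤ hi j ∧ p ≡ s [MOD L] ∧ p ≡ w j [MOD Q])
    (hS : ∀ j, ∃ S : Finset ℕ, K ≤ S.card ∧ ∀ p ∈ S, p.Prime ∧ lo j ≤ p ∧ (p : ℝ) ≤ hi j) :
    ∃ m : Fin (k + 2) → ℕ, ∀ j : Fin (k + 1), m j.castSucc + K ≤ m j.succ ∧
      ∀ i, m j.castSucc ≤ i → i < m j.succ →
        lo j ≤ Nat.nth Nat.Prime i ∧ (Nat.nth Nat.Prime i : ℝ) ≤ hi j ∧
        Nat.nth Nat.Prime i ≡ s [MOD L] ∧ Nat.nth Nat.Prime i ≡ w j [MOD Q] := by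
  have hmono : StrictMono lo := Fin.strictMono_iff_lt_succ.2 fun j => (h1 _).trans_lt (h2 j)
  have hmono' : ∀ {i j : Fin (k + 1)}, i ≤ j → hi i ≤ hi j := by
    intro i j hij
    rcases hij.lt_or_eq with h | h
    · exact (win_step h1 h2 h).le.trans (h1 j)
    · rw [h]
  have e1 : ∀ (a : ℝ) (p : ℕ), ⌈a⌉₊ ≤ p ↔ a ≤ p := fun a p => Nat.ceil_le
  have e2 : ∀ j (p : ℕ), p < ⌊hi j⌋₊ + 1 ↔ (p : ℝ) ≤ hi j := fun j p => by
    rw [Nat.lt_succ_iff, Nat.le_floor_iff ((h0 j).trans (h1 j))]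
  set l : Fin (k + 1) → ℕ := fun j => ⌈lo j⌉₊ with hl
  set h : Fin (k + 1) → ℕ := fun j => ⌊hi j⌋₊ + 1 with hh
  have hlh : ∀ j, l j ≤ h j := fun j => (Nat.ceil_mono (h1 j)).trans (Nat.ceil_le_floor_add_one _)
  have hcard : ∀ j, Nat.count Nat.Prime (l j) + K ≤ Nat.count Nat.Prime (h j) := by
    intro j
    obtain ⟨S, hS1, hS2⟩ := hS j
    have := count_card (hlh j) S (fun p hp =>
      ⟨(e1 _ _).2 (hS2 p hp).2.1, (e2 _ _).2 (hS2 p hp).2.2, (hS2 p hp).1⟩)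
    omega
  have hglue : ∀ j : Fin k, Nat.count Nat.Prime (h j.castSucc) = Nat.count Nat.Prime (l j.succ) := by
    intro j
    have hle : h j.castSucc ≤ l j.succ := by
      show ⌊hi j.castSucc⌋₊ + 1 ≤ ⌈lo j.succ⌉₊
      rw [Nat.succ_le_iff, Nat.lt_ceil]
      exact (Nat.floor_le ((h0 _).trans (h1 _))).trans_lt (h2 j)
    refine count_eq hle fun a ha1 ha2 hap => ?_
    have h3 : hi j.castSucc < a := by
      by_contra hcon
      have := (e2 j.castSucc a).2 (not_lt.1 hcon)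
      exact absurd ha1 (not_le.2 this)
    have h4 : (a : ℝ) < lo j.succ := by
      by_contra hcon
      have := (e1 (lo j.succ) a).2 (not_lt.1 hcon)
      exact absurd ha2 (not_lt.2 this)
    obtain ⟨i, hi1, hi2, -⟩ := hin a hap
      (((hmono.monotone (Fin.zero_le _)).trans (h1 j.castSucc)).trans h3.le)
      ((h4.le.trans (h1 _)).trans (hmono' (Fin.le_last _)))
    rcases le_or_gt i j.castSucc with hle | hgt
    · exact absurd hi2 (not_le.2 ((hmono' hle).trans_lt h3))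
    · have hle : j.succ ≤ i := by
        rw [Fin.lt_def] at hgt
        rw [Fin.le_def]
        simpa using hgt
      exact absurd hi1 (not_le.2 (h4.trans_le (hmono.monotone hle)))
  set m : Fin (k + 2) → ℕ :=
    Fin.snoc (α := fun _ => ℕ) (fun j : Fin (k + 1) => Nat.count Nat.Prime (l j))
      (Nat.count Nat.Prime (h (Fin.last k))) with hm
  have mc : ∀ j : Fin (k + 1), m j.castSucc = Nat.count Nat.Prime (l j) := fun j => by
    rw [hm, Fin.snoc_castSucc]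
  have ms : ∀ j : Fin (k + 1), m j.succ = Nat.count Nat.Prime (h j) := by
    intro j
    induction j using Fin.lastCases with
    | last => rw [Fin.succ_last, hm, Fin.snoc_last]
    | cast i => rw [Fin.succ_castSucc, mc, hglue]
  refine ⟨m, fun j => ⟨?_, fun i hi1 hi2 => ?_⟩⟩
  · rw [mc, ms]
    exact hcard j
  · rw [mc] at hi1
    rw [ms] at hi2
    have h3 : lo j ≤ Nat.nth Nat.Prime i := (e1 _ _).1 ((count_le_iff _ _).1 hi1)
    have h4 : (Nat.nth Nat.Prime i : ℝ) ≤ hi j := (e2 _ _).1 ((lt_count_iff _ _).1 hi2)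
    obtain ⟨i', h5, h6, h7, h8⟩ := hin _ (prime_nth i)
      ((hmono.monotone (Fin.zero_le _)).trans h3) (h4.trans (hmono' (Fin.le_last _)))
    have hij : i' = j := by
      rcases lt_trichotomy i' j with hlt | heq | hgt
      · exact absurd (win_step h1 h2 hlt) (not_lt.2 (h3.trans h6))
      · exact heq
      · exact absurd (win_step h1 h2 hgt) (not_lt.2 (h5.trans h4))
    rw [hij] at h8
    exact ⟨h3, h4, h7, h8⟩

/-- the strings, from the prime number `n` on: the text of helper62 -/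
def StrK {k : ℕ} (K L s Q : ℕ) (w : Fin (k + 1) → ℕ) (u : Fin k → ℝ) (h e : ℝ) (n : ℕ) : Prop :=
  ∃ m : Fin (k + 2) → ℕ, m 0 = n ∧
    (∀ j : Fin (k + 1), m j.castSucc + K ≤ m j.succ ∧
      ((Nat.nth Nat.Prime (m j.succ - 1) : ℝ) - Nat.nth Nat.Prime (m j.castSucc) < e * h) ∧
      ∀ i, m j.castSucc ≤ i → i < m j.succ → Nat.nth Nat.Prime i ≡ s [MOD L] ∧ Nat.nth Nat.Prime i ≡ w j [MOD Q]) ∧
    ∀ j : Fin k, |((Nat.nth Nat.Prime (m j.succ.castSucc - 1 + 1) - Nat.nth Nat.Prime (m j.succ.castSucc - 1) : ℕ) : ℝ) -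
      u j * h| < e * h

theorem StrK.mono {k K L s Q : ℕ} {w : Fin (k + 1) → ℕ} {u : Fin k → ℝ} {h e e' : ℝ} {n : ℕ}
    (H : StrK K L s Q w u h e n) (hh : 0 ≤ h) (he : e ≤ e') : StrK K L s Q w u h e' n := by
  have h1 : e * h ≤ e' * h := mul_le_mul_of_nonneg_right he hh
  obtain ⟨m, h2, h3, h4⟩ := H
  exact ⟨m, h2, fun j => ⟨(h3 j).1, (h3 j).2.1.trans_le h1, (h3 j).2.2⟩, fun j => (h4 j).trans_le h1⟩

/-- the strings at the scale `t log p_n` -/
theorem strK_of_windows {k K L s Q : ℕ} (hK : 1 ≤ K) {w : Fin (k + 1) → ℕ} {u : Fin k → ℝ} {lo hi : Fin (k + 1) → ℝ}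
    {t y e : ℝ} (ht : 0 < t) (hy : 0 < y) (he : 0 < e) (he1 : e ≤ 1) (hu : ∀ j, 0 ≤ u j) (hu1 : ∀ j, u j ≤ 1)
    (hhi : ∀ j, hi j ≤ lo j + e / 16 * (t * y))
    (hlo : ∀ j : Fin k, lo j.succ = lo j.castSucc + max (u j) (e / 4) * (t * y))
    {m : Fin (k + 2) → ℕ}
    (hm : ∀ j : Fin (k + 1), m j.castSucc + K ≤ m j.succ ∧
      ∀ i, m j.castSucc ≤ i → i < m j.succ →
        lo j ≤ Nat.nth Nat.Prime i ∧ (Nat.nth Nat.Prime i : ℝ) ≤ hi j ∧
        Nat.nth Nat.Prime i ≡ s [MOD L] ∧ Nat.nth Nat.Prime i ≡ w j [MOD Q])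
    (hlog : |Real.log (Nat.nth Nat.Prime (m 0)) - y| ≤ e / 4 * y) :
    StrK K L s Q w u (t * Real.log (Nat.nth Nat.Prime (m 0))) e (m 0) := by
  have hty : 0 < t * y := mul_pos ht hy
  generalize hz : t * Real.log (Nat.nth Nat.Prime (m 0)) = z
  generalize hv : t * y = v at *
  have hzv : |z - v| ≤ e / 4 * v := by
    rw [← hz, ← hv, ← mul_sub, abs_mul, abs_of_pos ht]
    calc t * |Real.log (Nat.nth Nat.Prime (m 0)) - y| ≤ t * (e / 4 * y) := mul_le_mul_of_nonneg_left hlog ht.le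
      _ = e / 4 * (t * y) := by ring
  rw [abs_le] at hzv
  obtain ⟨z1, z2⟩ := hzv
  have k6 : e * (v - e / 4 * v) ≤ e * z := mul_le_mul_of_nonneg_left (by linarith) he.le
  have k7 : e * (e / 4 * v) ≤ 1 * (e / 4 * v) := mul_le_mul_of_nonneg_right he1 (by positivity)
  have k8 : 0 < e * v := mul_pos he hty
  refine ⟨m, rfl, fun j => ?_, fun j => ?_⟩
  · obtain ⟨h1, h2⟩ := hm j
    refine ⟨h1, ?_, fun i hi1 hi2 => (h2 i hi1 hi2).2.2⟩
    have h3 := h2 (m j.castSucc) le_rfl (by omega)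
    have h4 := h2 (m j.succ - 1) (by omega) (by omega)
    have h5 := hhi j
    nlinarith [h3.1, h4.2.1]
  · obtain ⟨h1, h2⟩ := hm j.castSucc
    obtain ⟨h3, h4⟩ := hm j.succ
    have ej : (j.castSucc.succ : Fin (k + 2)) = j.succ.castSucc := Fin.succ_castSucc j
    rw [ej] at h1 h2
    have h5 := h2 (m j.succ.castSucc - 1) (by omega) (by omega)
    have h6 := h4 (m j.succ.castSucc - 1 + 1) (by omega) (by omega)
    have h7 := hhi j.castSucc
    have h8 := hhi j.succ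
    have h9 := hlo j
    have hU1 : u j ≤ max (u j) (e / 4) := le_max_left _ _
    have hU2 : max (u j) (e / 4) ≤ u j + e / 4 := max_le (by linarith) (by linarith [hu j])
    generalize max (u j) (e / 4) = U at *
    have huj := hu j
    have huj1 := hu1 j
    generalize u j = x at *
    have k1 : x * v ≤ U * v := mul_le_mul_of_nonneg_right hU1 hty.le
    have k2 : U * v ≤ (x + e / 4) * v := mul_le_mul_of_nonneg_right hU2 hty.le
    have k3 : x * z ≤ x * (v + e / 4 * v) := mul_le_mul_of_nonneg_left (by linarith) huj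
    have k4 : x * (v - e / 4 * v) ≤ x * z := mul_le_mul_of_nonneg_left (by linarith) huj
    have k5 : x * (e / 4 * v) ≤ 1 * (e / 4 * v) := mul_le_mul_of_nonneg_right huj1 (by positivity)
    have hle : Nat.nth Nat.Prime (m j.succ.castSucc - 1) ≤ Nat.nth Nat.Prime (m j.succ.castSucc - 1 + 1) :=
      (Nat.nth_monotone Nat.infinite_setOfPred_prime) (Nat.le_succ _)
    rw [Nat.cast_sub hle, abs_lt]
    constructor <;> nlinarith [h5.1, h5.2.1, h6.1, h6.2.1]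

end Pool.Agent.H48.STS
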