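import Pool.Agent.H48.ST.Nth

/-!
MP_8923e7_nt, strings at the scale `t log p`: combinatorics of four groups of intervals; from windows to consecutive primes.
-/

set_option autoImplicit false

namespace Pool.Agent.H48.STS

open Finset Pool.Agent.H48.ST

/-- four groups of `q` intervals: many hits give two groups next to each other, or two halves -/
theorem comb (q K : ℕ) (hK : 1 ≤ K) (Hs : Finset (Fin 2 × Fin 2 × Fin q)) (h : q + 2 * (K - 1) < Hs.card) :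
    (∃ a, ∀ b, K ≤ (Hs.filter (fun d => d.1 = a ∧ d.2.1 = b)).card) ∨
      ∀ a, K ≤ (Hs.filter (fun d => d.1 = a)).card := by
  classical
  by_contra hcon
  push Not at hcon
  obtain ⟨h1, a, ha⟩ := hcon
  obtain ⟨b, hb⟩ := h1 (1 - a)
  have e1 : Hs.card = (Hs.filter (fun d => d.1 = a)).card + (Hs.filter (fun d => ¬ d.1 = a)).card :=
    (card_filter_add_card_filter_not (s := Hs) (fun d => d.1 = a)).symm
  have e2 : (Hs.filter (fun d => ¬ d.1 = a)).card ≤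
      (Hs.filter (fun d => d.1 = 1 - a ∧ d.2.1 = b)).card +
        (Hs.filter (fun d => d.1 = 1 - a ∧ d.2.1 = 1 - b)).card := by
    refine (card_le_card ?_).trans (card_union_le _ _)
    intro d hd
    rw [mem_filter] at hd
    rw [mem_union, mem_filter, mem_filter]
    obtain ⟨h2, h3⟩ := hd
    have h4 : d.1 = 1 - a := by
      have : ∀ x y : Fin 2, ¬ x = y → x = 1 - y := by decide
      exact this _ _ h3
    have h5 : d.2.1 = b ∨ d.2.1 = 1 - b := by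
      have : ∀ x y : Fin 2, x = y ∨ x = 1 - y := by decide
      exact this _ _
    rcases h5 with h5 | h5
    · exact Or.inl ⟨h2, h4, h5⟩
    · exact Or.inr ⟨h2, h4, h5⟩
  have e3 : (Hs.filter (fun d => d.1 = 1 - a ∧ d.2.1 = 1 - b)).card ≤ q := by
    have : (Hs.filter (fun d => d.1 = 1 - a ∧ d.2.1 = 1 - b)).card ≤
        (univ.image (fun c : Fin q => ((1 - a, 1 - b, c) : Fin 2 × Fin 2 × Fin q))).card := by
      refine card_le_card fun d hd => ?_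
      rw [mem_filter] at hd
      rw [mem_image]
      refine ⟨d.2.2, mem_univ _, ?_⟩
      obtain ⟨-, h2, h3⟩ := hd
      rw [← h2, ← h3]
    refine this.trans (card_image_le.trans ?_)
    rw [card_univ, Fintype.card_fin]
  omega

/-- two windows of primes next to each other: consecutive primes -/
theorem strings_nat (K L s Q A B l0 h0 l1 h1 : ℕ) (hK : 1 ≤ K) (hl0 : l0 ≤ h0) (hh : h0 ≤ l1) (hl1 : l1 ≤ h1)
    (hin : ∀ p : ℕ, p.Prime → l0 ≤ p → p < h1 → p ≡ s [MOD L] ∧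
      ((p < h0 ∧ p ≡ A [MOD Q]) ∨ (l1 ≤ p ∧ p ≡ B [MOD Q])))
    (hA : ∃ S : Finset ℕ, K ≤ S.card ∧ ∀ p ∈ S, l0 ≤ p ∧ p < h0 ∧ p.Prime)
    (hB : ∃ S : Finset ℕ, K ≤ S.card ∧ ∀ p ∈ S, l1 ≤ p ∧ p < h1 ∧ p.Prime) :
    ∃ n : ℕ, K ≤ n + 1 ∧ ∀ j < K,
      (l0 ≤ Nat.nth Nat.Prime (n - j) ∧ Nat.nth Nat.Prime (n - j) < h0 ∧
        Nat.nth Nat.Prime (n - j) ≡ s [MOD L] ∧ Nat.nth Nat.Prime (n - j) ≡ A [MOD Q]) ∧
      (l1 ≤ Nat.nth Nat.Prime (n + 1 + j) ∧ Nat.nth Nat.Prime (n + 1 + j) < h1 ∧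
        Nat.nth Nat.Prime (n + 1 + j) ≡ s [MOD L] ∧ Nat.nth Nat.Prime (n + 1 + j) ≡ B [MOD Q]) := by
  obtain ⟨S, hS1, hS2⟩ := hA
  obtain ⟨S', hS1', hS2'⟩ := hB
  have c1 := count_card hl0 S hS2
  have c2 := count_card (hh.trans hl1) S' (fun p hp => ⟨hh.trans (hS2' p hp).1, (hS2' p hp).2⟩)
  obtain ⟨n, hn⟩ : ∃ n : ℕ, n + 1 = Nat.count Nat.Prime h0 := ⟨Nat.count Nat.Prime h0 - 1, by omega⟩
  refine ⟨n, by omega, fun j hj => ⟨?_, ?_⟩⟩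
  · have h2 : l0 ≤ Nat.nth Nat.Prime (n - j) := (count_le_iff _ _).1 (by omega)
    have h3 : Nat.nth Nat.Prime (n - j) < h0 := (lt_count_iff _ _).1 (by omega)
    obtain ⟨h4, h5⟩ := hin _ (prime_nth _) h2 (h3.trans_le (hh.trans hl1))
    rcases h5 with h5 | h5
    · exact ⟨h2, h3, h4, h5.2⟩
    · have := h5.1
      omega
  · have h2 : h0 ≤ Nat.nth Nat.Prime (n + 1 + j) := (count_le_iff _ _).1 (by omega)
    have h3 : Nat.nth Nat.Prime (n + 1 + j) < h1 := (lt_count_iff _ _).1 (by omega)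
    obtain ⟨h4, h5⟩ := hin _ (prime_nth _) ((hl0.trans h2)) h3
    rcases h5 with h5 | h5
    · have := h5.1
      omega
    · exact ⟨h5.1, h3, h4, h5.2⟩

/-- the same with real windows -/
theorem strings_real (K L s Q A B : ℕ) (a0 b0 a1 b1 : ℝ) (hK : 1 ≤ K) (h00 : 0 ≤ a0) (h0 : a0 ≤ b0) (h01 : b0 < a1)
    (h1 : a1 ≤ b1)
    (hin : ∀ p : ℕ, p.Prime → a0 ≤ p → (p : ℝ) ≤ b1 → p ≡ s [MOD L] ∧
      (((p : ℝ) ≤ b0 ∧ p ≡ A [MOD Q]) ∨ (a1 ≤ p ∧ p ≡ B [MOD Q])))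
    (hA : ∃ S : Finset ℕ, K ≤ S.card ∧ ∀ p ∈ S, p.Prime ∧ a0 ≤ p ∧ (p : ℝ) ≤ b0)
    (hB : ∃ S : Finset ℕ, K ≤ S.card ∧ ∀ p ∈ S, p.Prime ∧ a1 ≤ p ∧ (p : ℝ) ≤ b1) :
    ∃ n : ℕ, K ≤ n + 1 ∧ ∀ j < K,
      (a0 ≤ Nat.nth Nat.Prime (n - j) ∧ (Nat.nth Nat.Prime (n - j) : ℝ) ≤ b0 ∧
        Nat.nth Nat.Prime (n - j) ≡ s [MOD L] ∧ Nat.nth Nat.Prime (n - j) ≡ A [MOD Q]) ∧
      (a1 ≤ Nat.nth Nat.Prime (n + 1 + j) ∧ (Nat.nth Nat.Prime (n + 1 + j) : ℝ) ≤ b1 ∧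
        Nat.nth Nat.Prime (n + 1 + j) ≡ s [MOD L] ∧ Nat.nth Nat.Prime (n + 1 + j) ≡ B [MOD Q]) := by
  have hb0 : 0 ≤ b0 := h00.trans h0
  have ha1 : 0 ≤ a1 := hb0.trans h01.le
  have hb1 : 0 ≤ b1 := ha1.trans h1
  have lo : ∀ (a : ℝ) (p : ℕ), ⌈a⌉₊ ≤ p ↔ a ≤ p := fun a p => Nat.ceil_le
  have hi : ∀ (b : ℝ) (p : ℕ), 0 ≤ b → (p < ⌊b⌋₊ + 1 ↔ (p : ℝ) ≤ b) := fun b p hb => by
    rw [Nat.lt_succ_iff, Nat.le_floor_iff hb]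
  have g0 : ⌈a0⌉₊ ≤ ⌊b0⌋₊ + 1 := by
    refine (Nat.ceil_mono h0).trans ?_
    exact Nat.ceil_le_floor_add_one _
  have g1 : ⌈a1⌉₊ ≤ ⌊b1⌋₊ + 1 := (Nat.ceil_mono h1).trans (Nat.ceil_le_floor_add_one _)
  have g2 : ⌊b0⌋₊ + 1 ≤ ⌈a1⌉₊ := by
    rw [Nat.succ_le_iff, Nat.lt_ceil]
    exact (Nat.floor_le hb0).trans_lt h01
  obtain ⟨S, hS1, hS2⟩ := hA
  obtain ⟨S', hS1', hS2'⟩ := hB
  obtain ⟨n, hn1, hn2⟩ := strings_nat K L s Q A B ⌈a0⌉₊ (⌊b0⌋₊ + 1) ⌈a1⌉₊ (⌊b1⌋₊ + 1) hK g0 g2 g1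
    (fun p hp hp1 hp2 => by
      obtain ⟨h2, h3⟩ := hin p hp ((lo _ _).1 hp1) ((hi _ _ hb1).1 hp2)
      refine ⟨h2, ?_⟩
      rcases h3 with h3 | h3
      · exact Or.inl ⟨(hi _ _ hb0).2 h3.1, h3.2⟩
      · exact Or.inr ⟨(lo _ _).2 h3.1, h3.2⟩)
    ⟨S, hS1, fun p hp => ⟨(lo _ _).2 (hS2 p hp).2.1, (hi _ _ hb0).2 (hS2 p hp).2.2, (hS2 p hp).1⟩⟩
    ⟨S', hS1', fun p hp => ⟨(lo _ _).2 (hS2' p hp).2.1, (hi _ _ hb1).2 (hS2' p hp).2.2, (hS2' p hp).1⟩⟩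
  refine ⟨n, hn1, fun j hj => ?_⟩
  obtain ⟨⟨h2, h3, h4⟩, h5, h6, h7⟩ := hn2 j hj
  exact ⟨⟨(lo _ _).1 h2, (hi _ _ hb0).1 h3, h4⟩, (lo _ _).1 h5, (hi _ _ hb1).1 h6, h7⟩

/-- distinct primes in distinct intervals -/
theorem primes_of_hits {ι : Type} [DecidableEq ι] (lo hi : ι → ℝ) (N : ℕ)
    (hdis : ∀ d d', d ≠ d' → hi d < lo d' ∨ hi d' < lo d) (E : Finset ι)
    (hE : ∀ d ∈ E, ∃ y : ℕ, lo d ≤ (y : ℝ) ∧ (y : ℝ) ≤ hi d ∧ (N + y).Prime) :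
    ∃ S : Finset ℕ, E.card ≤ S.card ∧ ∀ p ∈ S, p.Prime ∧ ∃ d ∈ E, (N : ℝ) + lo d ≤ p ∧ (p : ℝ) ≤ N + hi d := by
  classical
  choose! y hy using hE
  refine ⟨E.image (fun d => N + y d), ?_, ?_⟩
  · rw [card_image_of_injOn]
    intro d hd d' hd' h
    by_contra hne
    have e : y d = y d' := by
      have : N + y d = N + y d' := h
      omega
    have h1 := hy d hd
    have h2 := hy d' hd'
    rw [e] at h1
    rcases hdis d d' hne with h3 | h3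
    · linarith [h1.2.1, h2.1]
    · linarith [h2.2.1, h1.1]
  · intro p hp
    rw [mem_image] at hp
    obtain ⟨d, hd, rfl⟩ := hp
    obtain ⟨h1, h2, h3⟩ := hy d hd
    refine ⟨h3, d, hd, ?_, ?_⟩
    · push_cast
      linarith
    · push_cast
      linarith

end Pool.Agent.H48.STS
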