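import Pool.Agent.H48.STS.Geo

/-!
MP_8923e7_nt, strings at the scale `t log p`: a good window contains two strings, at the small or at the large scale.
-/

set_option autoImplicit false

namespace Pool.Agent.H48.STS

open Finset Pool.Agent.H48.ST

theorem fin2 : ∀ b : Fin 2, b = 0 ∨ b = 1 := by decide

section
variable {t0 t1 U0 U1 g e : ℝ}

theorem Pz_nonneg (ht0 : 0 < t0) (ht1 : 0 < t1) (hU0 : 0 ≤ U0) (hU1 : 0 ≤ U1) (hg : 0 < g) (a b : Fin 2) :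
    g ≤ Pz t0 t1 U0 U1 g a b := by
  unfold Pz
  have h1 : 0 ≤ ((a : ℕ) : ℝ) * (U1 * t1) := by positivity
  have h2 : 0 ≤ ((b : ℕ) : ℝ) * (U0 * t0) := by positivity
  linarith

theorem Pz_le (ht0 : 0 < t0) (ht1 : 0 < t1) (hU0 : 0 ≤ U0) (hU0' : U0 ≤ 1) (hU1 : 0 ≤ U1) (hU1' : U1 ≤ 1)
    (a b : Fin 2) : Pz t0 t1 U0 U1 g a b ≤ g + t1 + t0 := by
  unfold Pz
  have h1 : ((a : ℕ) : ℝ) ≤ 1 := by
    have : (a : ℕ) ≤ 1 := Nat.lt_succ_iff.1 a.2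
    exact_mod_cast this
  have h2 : ((b : ℕ) : ℝ) ≤ 1 := by
    have : (b : ℕ) ≤ 1 := Nat.lt_succ_iff.1 b.2
    exact_mod_cast this
  have h3 : ((a : ℕ) : ℝ) * (U1 * t1) ≤ 1 * (U1 * t1) := mul_le_mul_of_nonneg_right h1 (by positivity)
  have h4 : ((b : ℕ) : ℝ) * (U0 * t0) ≤ 1 * (U0 * t0) := mul_le_mul_of_nonneg_right h2 (by positivity)
  have h5 : U1 * t1 ≤ 1 * t1 := mul_le_mul_of_nonneg_right hU1' ht1.le
  have h6 : U0 * t0 ≤ 1 * t0 := mul_le_mul_of_nonneg_right hU0' ht0.le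
  linarith

theorem Pz_ge0 (ht0 : 0 < t0) (hU0 : 0 ≤ U0) (a b : Fin 2) : Pz t0 t1 U0 U1 g a 0 ≤ Pz t0 t1 U0 U1 g a b := by
  unfold Pz
  have h2 : 0 ≤ ((b : ℕ) : ℝ) * (U0 * t0) := by positivity
  simp only [Fin.val_zero, Nat.cast_zero]
  linarith

theorem Pz_le1 (ht0 : 0 < t0) (hU0 : 0 ≤ U0) (a b : Fin 2) : Pz t0 t1 U0 U1 g a b ≤ Pz t0 t1 U0 U1 g a 1 := by
  unfold Pz
  have h2 : ((b : ℕ) : ℝ) ≤ 1 := by
    have : (b : ℕ) ≤ 1 := Nat.lt_succ_iff.1 b.2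
    exact_mod_cast this
  have h4 : ((b : ℕ) : ℝ) * (U0 * t0) ≤ 1 * (U0 * t0) := mul_le_mul_of_nonneg_right h2 (by positivity)
  simp only [Fin.val_one, Nat.cast_one]
  linarith

end

theorem win {K q L s Q0 : ℕ} (hK : 1 ≤ K) (Q : Fin 2 → ℕ) (w : Fin 2 → Fin 2 → ℕ) {t0 t1 U0 U1 g e y H : ℝ}
    (ht0 : 0 < t0) (ht1 : 0 < t1) (hU0 : e / 4 ≤ U0) (hU0' : U0 ≤ 1) (hU1 : e / 4 ≤ U1) (hU1' : U1 ≤ 1) (hg : 0 < g)
    (he : 0 < e) (he1 : e ≤ 1) (ht : 32 / e * t0 ≤ t1) (hq : 2 * (q : ℝ) * g ≤ e / 16 * t0) (hy : 0 < y)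
    (hH : (g + t1 + t0 + e / 16 * t0) * y ≤ H)
    (ρ : Fin 2 × Fin 2 × Fin q → ℕ) (hρs : ∀ d, ρ d ≡ s [MOD L]) (hρ0 : ∀ d, ρ d ≡ w 0 d.2.1 [MOD Q 0])
    (hρ1 : ∀ d, ρ d ≡ w 1 d.1 [MOD Q 1]) (hL : L ∣ Q0) (hQ0 : Q 0 ∣ Q0) (hQ1 : Q 1 ∣ Q0) (N : ℕ)
    (hG : ∀ y' : ℕ, (y' : ℝ) ≤ H → (N + y').Prime → ∃ d, lo t0 t1 U0 U1 g d * y ≤ y' ∧
      (y' : ℝ) ≤ hi t0 t1 U0 U1 g d * y ∧ N + y' ≡ ρ d [MOD Q0])
    (Hs : Finset (Fin 2 × Fin 2 × Fin q)) (hHs : q + 2 * (K - 1) < Hs.card)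
    (hhit : ∀ d ∈ Hs, ∃ y' : ℕ, lo t0 t1 U0 U1 g d * y ≤ y' ∧ (y' : ℝ) ≤ hi t0 t1 U0 U1 g d * y ∧ (N + y').Prime)
    (hdis : ∀ d d' : Fin 2 × Fin 2 × Fin q, d ≠ d' → hi t0 t1 U0 U1 g d * y < lo t0 t1 U0 U1 g d' * y ∨
      hi t0 t1 U0 U1 g d' * y < lo t0 t1 U0 U1 g d * y) :
    (∃ (a : Fin 2) (n : ℕ), Nd K L s (Q 0) (w 0) (N + Pz t0 t1 U0 U1 g a 0 * y)
      (N + (Pz t0 t1 U0 U1 g a 0 + e / 16 * t0) * y) (N + Pz t0 t1 U0 U1 g a 1 * y)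
      (N + (Pz t0 t1 U0 U1 g a 1 + e / 16 * t0) * y) n) ∨
    ∃ n : ℕ, Nd K L s (Q 1) (w 1) (N + Pz t0 t1 U0 U1 g 0 0 * y)
      (N + (Pz t0 t1 U0 U1 g 0 1 + e / 16 * t0) * y) (N + Pz t0 t1 U0 U1 g 1 0 * y)
      (N + (Pz t0 t1 U0 U1 g 1 1 + e / 16 * t0) * y) n := by
  classical
  have hU00 : 0 ≤ U0 := by linarith
  have hU10 : 0 ≤ U1 := by linarith
  have hN0 : (0 : ℝ) ≤ N := Nat.cast_nonneg N
  have het : 0 < e / 16 * t0 := by positivity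
  have hPn := fun a b => Pz_nonneg (g := g) ht0 ht1 hU00 hU10 hg a b
  have hPl := fun a b => Pz_le (g := g) ht0 ht1 hU00 hU0' hU10 hU1' a b
  have hP0 := fun a b => Pz_ge0 (t1 := t1) (U1 := U1) (g := g) ht0 hU00 a b
  have hP1 := fun a b => Pz_le1 (t1 := t1) (U1 := U1) (g := g) ht0 hU00 a b
  have hPb := fun a => Pz_b (t1 := t1) (U1 := U1) (g := g) ht0 hU0 he a
  have hPa := fun b b' => Pz_a (g := g) ht0 hU0' hU1 he he1 ht b b' hU00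
  have hlo := fun d : Fin 2 × Fin 2 × Fin q => lo_ge (t0 := t0) (t1 := t1) (U0 := U0) (U1 := U1) hg d
  have hhi := fun d : Fin 2 × Fin 2 × Fin q => hi_le (t1 := t1) (U0 := U0) (U1 := U1) hg hq d
  generalize hP : Pz t0 t1 U0 U1 g = P at *
  -- a prime of the window
  have key : ∀ p : ℕ, p.Prime → (N : ℝ) ≤ p → (p : ℝ) ≤ N + H → ∃ d : Fin 2 × Fin 2 × Fin q,
      (N : ℝ) + P d.1 d.2.1 * y ≤ p ∧ (p : ℝ) ≤ N + (P d.1 d.2.1 + e / 16 * t0) * y ∧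
      p ≡ s [MOD L] ∧ p ≡ w 0 d.2.1 [MOD Q 0] ∧ p ≡ w 1 d.1 [MOD Q 1] := by
    intro p hp h1 h2
    have h3 : N ≤ p := by exact_mod_cast h1
    obtain ⟨y', rfl⟩ := Nat.exists_eq_add_of_le h3
    push_cast at h2
    obtain ⟨d, h4, h5, h6⟩ := hG y' (by linarith) hp
    refine ⟨d, ?_, ?_, (h6.of_dvd hL).trans (hρs d), (h6.of_dvd hQ0).trans (hρ0 d), (h6.of_dvd hQ1).trans (hρ1 d)⟩
    · push_cast
      have := mul_le_mul_of_nonneg_right (hlo d) hy.le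
      linarith
    · push_cast
      have := mul_le_mul_of_nonneg_right (hhi d) hy.le
      linarith
  -- primes from hits
  have hits : ∀ E ⊆ Hs, ∃ S : Finset ℕ, E.card ≤ S.card ∧ ∀ p ∈ S, p.Prime ∧ ∃ d ∈ E,
      (N : ℝ) + P d.1 d.2.1 * y ≤ p ∧ (p : ℝ) ≤ N + (P d.1 d.2.1 + e / 16 * t0) * y := by
    intro E hE
    obtain ⟨S, hS1, hS2⟩ := primes_of_hits (fun d => lo t0 t1 U0 U1 g d * y) (fun d => hi t0 t1 U0 U1 g d * y) N hdis E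
      (fun d hd => hhit d (hE hd))
    refine ⟨S, hS1, fun p hp => ?_⟩
    obtain ⟨h1, d, hd, h2, h3⟩ := hS2 p hp
    refine ⟨h1, d, hd, ?_, ?_⟩
    · have := mul_le_mul_of_nonneg_right (hlo d) hy.le
      linarith
    · have := mul_le_mul_of_nonneg_right (hhi d) hy.le
      linarith
  have mul1 : ∀ {A B : ℝ}, A ≤ B → (N : ℝ) + A * y ≤ N + B * y := fun h => by
    have := mul_le_mul_of_nonneg_right h hy.le
    linarith
  have mul2 : ∀ {A B : ℝ}, A < B → (N : ℝ) + A * y < N + B * y := fun h => by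
    have := mul_lt_mul_of_pos_right h hy
    linarith
  have mul0 : ∀ {A : ℝ}, 0 ≤ A → (N : ℝ) ≤ N + A * y := fun h => by
    have := mul_nonneg h hy.le
    linarith
  have mulH : ∀ {A : ℝ}, A ≤ g + t1 + t0 + e / 16 * t0 → (N : ℝ) + A * y ≤ N + H := fun h => by
    have := mul_le_mul_of_nonneg_right h hy.le
    linarith
  rcases comb q K hK Hs hHs with ⟨a, ha⟩ | ha
  · left
    refine ⟨a, ?_⟩
    have hS : ∀ b, ∃ S : Finset ℕ, K ≤ S.card ∧ ∀ p ∈ S, p.Prime ∧ (N : ℝ) + P a b * y ≤ p ∧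
        (p : ℝ) ≤ N + (P a b + e / 16 * t0) * y := by
      intro b
      obtain ⟨S, hS1, hS2⟩ := hits _ (filter_subset (fun d => d.1 = a ∧ d.2.1 = b) Hs)
      refine ⟨S, (ha b).trans hS1, fun p hp => ?_⟩
      obtain ⟨h1, d, hd, h2, h3⟩ := hS2 p hp
      obtain ⟨-, h4, h5⟩ := mem_filter.1 hd
      rw [h4, h5] at h2 h3
      exact ⟨h1, h2, h3⟩
    refine strings_real K L s (Q 0) (w 0 0) (w 0 1) _ _ _ _ hK
      (hN0.trans (mul0 (hg.le.trans (hPn a 0)))) (mul1 (by linarith)) (mul2 (hPb a)) (mul1 (by linarith))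
      (fun p hp h1 h2 => ?_) (hS 0) (hS 1)
    obtain ⟨d, h3, h4, h5, h6, h7⟩ := key p hp ((mul0 (hg.le.trans (hPn a 0))).trans h1)
      (h2.trans (mulH (by linarith [hPl a 1])))
    refine ⟨h5, ?_⟩
    have hda : d.1 = a := by
      by_contra hne
      rcases fin2 a with rfl | rfl
      · rcases fin2 d.1 with h8 | h8
        · exact hne h8
        · rw [h8] at h3
          have := mul2 (hPa 1 d.2.1)
          linarith
      · rcases fin2 d.1 with h8 | h8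
        · rw [h8] at h4
          have := mul2 (hPa d.2.1 0)
          linarith
        · exact hne h8
    rw [hda] at h3 h4
    rcases fin2 d.2.1 with h8 | h8
    · rw [h8] at h3 h4 h6
      exact Or.inl ⟨h4, h6⟩
    · rw [h8] at h3 h4 h6
      exact Or.inr ⟨h3, h6⟩
  · right
    have hS : ∀ a, ∃ S : Finset ℕ, K ≤ S.card ∧ ∀ p ∈ S, p.Prime ∧ (N : ℝ) + P a 0 * y ≤ p ∧
        (p : ℝ) ≤ N + (P a 1 + e / 16 * t0) * y := by
      intro a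
      obtain ⟨S, hS1, hS2⟩ := hits _ (filter_subset (fun d => d.1 = a) Hs)
      refine ⟨S, (ha a).trans hS1, fun p hp => ?_⟩
      obtain ⟨h1, d, hd, h2, h3⟩ := hS2 p hp
      obtain ⟨-, h4⟩ := mem_filter.1 hd
      rw [h4] at h2 h3
      exact ⟨h1, (mul1 (hP0 a d.2.1)).trans h2, h3.trans (mul1 (by linarith [hP1 a d.2.1]))⟩
    refine strings_real K L s (Q 1) (w 1 0) (w 1 1) _ _ _ _ hK
      (hN0.trans (mul0 (hg.le.trans (hPn 0 0)))) (mul1 (by linarith [hP0 0 1])) (mul2 (hPa 1 0))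
      (mul1 (by linarith [hP0 1 1])) (fun p hp h1 h2 => ?_) (hS 0) (hS 1)
    obtain ⟨d, h3, h4, h5, h6, h7⟩ := key p hp ((mul0 (hg.le.trans (hPn 0 0))).trans h1)
      (h2.trans (mulH (by linarith [hPl 1 1])))
    refine ⟨h5, ?_⟩
    rcases fin2 d.1 with h8 | h8
    · rw [h8] at h3 h4 h7
      exact Or.inl ⟨h4.trans (mul1 (by linarith [hP1 0 d.2.1])), h7⟩
    · rw [h8] at h3 h4 h7
      exact Or.inr ⟨(mul1 (hP0 1 d.2.1)).trans h3, h7⟩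

end Pool.Agent.H48.STS
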