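import Pool.Agent.H34.STH.Hthm
import Pool.Agent.H48.STS.Win
import Pool.Agent.H62.AU.Fin

/-!
MP_8923e7_nt, two strings of consecutive primes at one of two separated scales `t log p`, in any two classes.
-/

set_option autoImplicit false

namespace Pool.Agent.H48.STS

open Filter Finset Pool.Agent.H82.LS Pool.Agent.H62.VK Pool.Agent.H34.RC Pool.Agent.H62.VW Pool.Agent.H19.AS
  Pool.Agent.H62.AS Pool.Agent.H62.AU Pool.Agent.H34.STH

theorem dis {t0 t1 U0 U1 g e : ℝ} {q : ℕ} (ht0 : 0 < t0) (hU0 : e / 4 ≤ U0) (hU0' : U0 ≤ 1)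
    (hU1 : e / 4 ≤ U1) (hg : 0 < g) (he : 0 < e) (he1 : e ≤ 1) (ht : 32 / e * t0 ≤ t1)
    (hq : 2 * (q : ℝ) * g ≤ e / 16 * t0) (d d' : Fin 2 × Fin 2 × Fin q) (hd : d ≠ d') :
    hi t0 t1 U0 U1 g d < lo t0 t1 U0 U1 g d' ∨ hi t0 t1 U0 U1 g d' < lo t0 t1 U0 U1 g d := by
  have hU00 : 0 ≤ U0 := by linarith
  have hPb := fun a => Pz_b (t1 := t1) (U1 := U1) (g := g) ht0 hU0 he a
  have hPa := fun b b' => Pz_a (g := g) ht0 hU0' hU1 he he1 ht b b' hU00
  have hlo := fun d : Fin 2 × Fin 2 × Fin q => lo_ge (t0 := t0) (t1 := t1) (U0 := U0) (U1 := U1) hg d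
  have hhi := fun d : Fin 2 × Fin 2 × Fin q => hi_le (t1 := t1) (U0 := U0) (U1 := U1) hg hq d
  obtain ⟨a, b, c⟩ := d
  obtain ⟨a', b', c'⟩ := d'
  have l1 := hlo (a, b, c)
  have l2 := hlo (a', b', c')
  have l3 := hhi (a, b, c)
  have l4 := hhi (a', b', c')
  dsimp only at l1 l2 l3 l4
  rcases fin2 a with rfl | rfl <;> rcases fin2 a' with rfl | rfl
  · rcases fin2 b with rfl | rfl <;> rcases fin2 b' with rfl | rfl
    · have hc : c ≠ c' := fun h => hd (by rw [h])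
      unfold hi lo
      rcases lt_or_gt_of_ne hc with h | h
      · left
        have h1 : ((c : ℕ) : ℝ) + 1 ≤ (c' : ℕ) := by exact_mod_cast h
        nlinarith
      · right
        have h1 : ((c' : ℕ) : ℝ) + 1 ≤ (c : ℕ) := by exact_mod_cast h
        nlinarith
    · exact Or.inl (by linarith [hPb 0])
    · exact Or.inr (by linarith [hPb 0])
    · have hc : c ≠ c' := fun h => hd (by rw [h])
      unfold hi lo
      rcases lt_or_gt_of_ne hc with h | h
      · left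
        have h1 : ((c : ℕ) : ℝ) + 1 ≤ (c' : ℕ) := by exact_mod_cast h
        nlinarith
      · right
        have h1 : ((c' : ℕ) : ℝ) + 1 ≤ (c : ℕ) := by exact_mod_cast h
        nlinarith
  · exact Or.inl (by linarith [hPa b b'])
  · exact Or.inr (by linarith [hPa b' b])
  · rcases fin2 b with rfl | rfl <;> rcases fin2 b' with rfl | rfl
    · have hc : c ≠ c' := fun h => hd (by rw [h])
      unfold hi lo
      rcases lt_or_gt_of_ne hc with h | h
      · left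
        have h1 : ((c : ℕ) : ℝ) + 1 ≤ (c' : ℕ) := by exact_mod_cast h
        nlinarith
      · right
        have h1 : ((c' : ℕ) : ℝ) + 1 ≤ (c : ℕ) := by exact_mod_cast h
        nlinarith
    · exact Or.inl (by linarith [hPb 1])
    · exact Or.inr (by linarith [hPb 1])
    · have hc : c ≠ c' := fun h => hd (by rw [h])
      unfold hi lo
      rcases lt_or_gt_of_ne hc with h | h
      · left
        have h1 : ((c : ℕ) : ℝ) + 1 ≤ (c' : ℕ) := by exact_mod_cast h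
        nlinarith
      · right
        have h1 : ((c' : ℕ) : ℝ) + 1 ≤ (c : ℕ) := by exact_mod_cast h
        nlinarith

/-- classes for the four groups -/
theorem classes (L s : ℕ) (hs : Nat.Coprime s L) (Q : Fin 2 → ℕ) (hQL : ∀ i, Nat.Coprime (Q i) L)
    (hQQ : Nat.Coprime (Q 0) (Q 1)) (x y : ℕ) (hx : Nat.Coprime x (Q 0)) (hy : Nat.Coprime y (Q 1)) :
    ∃ ρ : ℕ, ρ ≡ s [MOD L] ∧ ρ ≡ x [MOD Q 0] ∧ ρ ≡ y [MOD Q 1] ∧ Nat.Coprime ρ (L * (Q 0 * Q 1)) := by
  have h1 := (Nat.chineseRemainder hQQ x y).2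
  generalize (Nat.chineseRemainder hQQ x y : ℕ) = z at h1
  have hL : Nat.Coprime L (Q 0 * Q 1) := Nat.Coprime.mul_right (hQL 0).symm (hQL 1).symm
  have h2 := (Nat.chineseRemainder hL s z).2
  generalize (Nat.chineseRemainder hL s z : ℕ) = ρ at h2
  have h3 : ρ ≡ x [MOD Q 0] := (h2.2.of_dvd (Dvd.intro _ rfl)).trans h1.1
  have h4 : ρ ≡ y [MOD Q 1] := (h2.2.of_dvd (Dvd.intro_left _ rfl)).trans h1.2
  have cop : ∀ {a b m : ℕ}, a ≡ b [MOD m] → Nat.Coprime b m → Nat.Coprime a m := fun h h' => by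
    have h5 := Nat.ModEq.gcd_eq h
    unfold Nat.Coprime at h' ⊢
    rw [h5, h']
  exact ⟨ρ, h2.1, h3, h4, Nat.Coprime.mul_right (cop h2.1 hs) (Nat.Coprime.mul_right (cop h3 hx) (cop h4 hy))⟩

theorem strsH (hTH : ThmH) (hWin : WinU) (K : ℕ) (hK : 1 ≤ K) : ∃ D : ℕ, ∀ L s : ℕ, 0 < L → Nat.Coprime s L →
    ∀ Q : Fin 2 → ℕ, (∀ i, 0 < Q i) → (∀ i, Nat.Coprime (Q i) L) → (∀ i j, i ≠ j → Nat.Coprime (Q i) (Q j)) →
    ∀ e : ℝ, 0 < e → ∃ C d B : ℝ, 1 ≤ C ∧ 0 < d ∧ ∀ (M : ℕ) (τ : ℝ) (t : Fin 2 → ℝ), ChainU C B D M τ t →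
      ∃ i, ∀ w : Fin 2 → ℕ, (∀ j, Nat.Coprime (w j) (Q i)) → ∀ u : ℝ, 0 ≤ u → u ≤ 1 →
        d * τ ^ D * M ≤
          (({n : ℕ | n < M ∧ Str K L s (Q i) w u (t i * Real.log (Nat.nth Nat.Prime n)) e n}).ncard : ℝ) := by
  classical
  obtain ⟨q, hqd⟩ : ∃ q : ℕ, q = 50 * K := ⟨_, rfl⟩
  have hq0 : 0 < q := by omega
  have hqr : (0 : ℝ) < q := by exact_mod_cast hq0
  obtain ⟨m, hm⟩ : ∃ m : ℕ, m = 4 * q := ⟨_, rfl⟩
  have hcard : Fintype.card (Fin 2 × Fin 2 × Fin q) = m := by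
    rw [Fintype.card_prod, Fintype.card_prod, Fintype.card_fin, Fintype.card_fin, hm]
    ring
  obtain ⟨f, -⟩ : ∃ (_ : Fin m ≃ Fin 2 × Fin 2 × Fin q), True := ⟨(Fintype.equivFinOfCardEq hcard).symm, trivial⟩
  obtain ⟨D, hTS⟩ := hTH m (q + 2 * (K - 1)) (by omega)
  refine ⟨D, ?_⟩
  intro L s hL hs Q hQ hQL hQQ' e0 he0
  have hQQ : Nat.Coprime (Q 0) (Q 1) := hQQ' 0 1 (by decide)
  obtain ⟨Q0, hQ0⟩ : ∃ Q0 : ℕ, Q0 = L * (Q 0 * Q 1) := ⟨_, rfl⟩
  have hQ0pos : 0 < Q0 := by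
    rw [hQ0]
    exact Nat.mul_pos hL (Nat.mul_pos (hQ 0) (hQ 1))
  obtain ⟨lam, δ, θ, T', H0, hlam, hlam1, hδ, hθ, hT', hH0, hxx⟩ := hTS Q0 hQ0pos
  -- the error
  obtain ⟨e, hed⟩ : ∃ e, e = min e0 1 := ⟨_, rfl⟩
  have he : 0 < e := by rw [hed]; exact lt_min he0 one_pos
  have he1 : e ≤ 1 := by rw [hed]; exact min_le_right _ _
  have hee : e ≤ e0 := by rw [hed]; exact min_le_left _ _
  have hnear := log_near θ T' 1 (e / 4) hθ hT' one_pos (by positivity)
  obtain ⟨d0, xs, hd0, hxs, hwin⟩ := hWin T' hT'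
  have hev := (hxs.eventually hxx).and ((hxs.eventually hnear).and ((hxs.eventually_gt_atTop 1).and hwin))
  obtain ⟨M1, hM1⟩ := eventually_atTop.1 hev
  obtain ⟨c1, hc1d⟩ : ∃ c1 : ℝ, c1 = e / (32 * q) := ⟨_, rfl⟩
  have hc1 : 0 < c1 := by rw [hc1d]; positivity
  have hq1 : (1 : ℝ) ≤ q := by exact_mod_cast hq0
  have hc11 : c1 ≤ 1 := by
    rw [hc1d, div_le_one (by positivity)]
    linarith
  have hcq : 2 * (q : ℝ) * c1 = e / 16 := by
    rw [hc1d]
    field_simp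
    ring
  obtain ⟨C, hCd⟩ : ∃ C : ℝ, C = max 1 (max (16 / lam) (32 / e)) := ⟨_, rfl⟩
  have hC1 : 1 ≤ C := hCd ▸ le_max_left _ _
  have hC2 : 16 / lam ≤ C := hCd ▸ (le_max_left _ _).trans (le_max_right _ _)
  have hC3 : 32 / e ≤ C := hCd ▸ (le_max_right _ _).trans (le_max_right _ _)
  obtain ⟨B, hBd⟩ : ∃ B : ℝ, B = max (max 32 (Real.log ((M1 : ℝ) + 1))) (H0 * 2 ^ D / c1) := ⟨_, rfl⟩
  have hB1 : 32 ≤ B := hBd ▸ (le_max_left _ _).trans (le_max_left _ _)
  have hB2 : Real.log ((M1 : ℝ) + 1) ≤ B := hBd ▸ (le_max_right _ _).trans (le_max_left _ _)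
  have hB3 : H0 * 2 ^ D ≤ B * c1 := by
    rw [← div_le_iff₀ hc1]
    exact hBd ▸ le_max_right _ _
  refine ⟨C, d0 * (δ * c1 ^ D) / 2, B, hC1, by positivity, fun M τ t hch => ?_⟩
  obtain ⟨hB, ht, hsepC⟩ := hch
  by_contra hcon
  push Not at hcon
  choose w hw u hu0 hu1 hcnt using hcon
  have hτ : 0 < τ := pos_of_scale one_pos ((by linarith : (1 : ℝ) ≤ B).trans hB)
  have htpos : ∀ i, 0 < t i := fun i => hτ.trans_le (ht i).1
  obtain ⟨tl, htl⟩ : ∃ tl, tl = t 1 := ⟨_, rfl⟩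
  obtain ⟨htl1, htl2, htl3⟩ := ht 1
  rw [← htl] at htl1 htl2 htl3
  have htl0 : 0 < tl := hτ.trans_le htl1
  have htle1 : tl ≤ 1 := by nlinarith
  have hlM : 0 ≤ Real.log (M : ℝ) := Real.log_natCast_nonneg M
  have hBM : B ≤ Real.log (M : ℝ) := by
    have h1 : τ * Real.log M ≤ 1 * Real.log M := mul_le_mul_of_nonneg_right (htl1.trans htle1) hlM
    linarith
  have hMM : M1 ≤ M := by
    have h1 : Real.log ((M1 : ℝ) + 1) ≤ Real.log M := hB2.trans hBM
    have hM0 : (0 : ℝ) < M := by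
      by_contra hcon
      have h2 : (M : ℝ) = 0 := le_antisymm (not_lt.1 hcon) (Nat.cast_nonneg M)
      rw [h2, Real.log_zero] at hBM
      linarith
    have h2 : (M1 : ℝ) + 1 ≤ M := (Real.log_le_log_iff (by positivity) hM0).1 h1
    have h3 : ((M1 + 1 : ℕ) : ℝ) ≤ M := by
      push_cast
      exact h2
    have h4 : M1 + 1 ≤ M := by exact_mod_cast h3
    omega
  obtain ⟨hxx, hnear, hxs1, hlx1, hlx2, hwin⟩ := hM1 M hMM
  generalize xs M = X at hxx hnear hxs1 hlx1 hlx2 hwin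
  obtain ⟨y, hyd⟩ : ∃ y, y = Real.log X := ⟨_, rfl⟩
  rw [← hyd] at hxx hnear hlx1 hlx2 hwin
  have hy : 0 < y := by linarith
  have hX0 : 0 < X := by linarith
  -- the classes of the groups
  have hρ := fun d : Fin 2 × Fin 2 × Fin q =>
    classes L s hs Q hQL hQQ (w 0 d.2.1) (w 1 d.1) (hw 0 _) (hw 1 _)
  choose ρ hρ1 hρ2 hρ3 hρ4 using hρ
  -- the positions
  obtain ⟨t0, ht0d⟩ : ∃ t0, t0 = t 0 := ⟨_, rfl⟩
  have ht0 : 0 < t0 := ht0d ▸ htpos 0
  have hτ0 : τ ≤ t0 := ht0d ▸ (ht 0).1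
  have hsep : 32 / e * t0 ≤ tl := by
    have h1 := hsepC 0 1 (by decide)
    rw [← ht0d, ← htl] at h1
    exact (mul_le_mul_of_nonneg_right hC3 ht0.le).trans h1
  have hsep2 : t0 ≤ tl := by
    have h1 := hsepC 0 1 (by decide)
    rw [← ht0d, ← htl] at h1
    have h2 : 1 * t0 ≤ C * t0 := mul_le_mul_of_nonneg_right hC1 ht0.le
    linarith
  obtain ⟨g, hg⟩ : ∃ g, g = c1 * t0 := ⟨_, rfl⟩
  have hg0 : 0 < g := by rw [hg]; positivity
  have hgt : g ≤ t0 := by
    rw [hg]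
    nlinarith
  have hqg : 2 * (q : ℝ) * g ≤ e / 16 * t0 := by
    rw [hg, ← mul_assoc, hcq]
  have hUi : ∀ i, e / 4 ≤ max (u i) (e / 4) := fun i => le_max_right _ _
  have hUi1 : ∀ i, max (u i) (e / 4) ≤ 1 := fun i => max_le (hu1 i) (by linarith)
  obtain ⟨U0, hU0d⟩ : ∃ U0, U0 = max (u 0) (e / 4) := ⟨_, rfl⟩
  obtain ⟨U1, hU1d⟩ : ∃ U1, U1 = max (u 1) (e / 4) := ⟨_, rfl⟩
  have hU0 : e / 4 ≤ U0 := hU0d ▸ hUi 0
  have hU0' : U0 ≤ 1 := hU0d ▸ hUi1 0
  have hU1 : e / 4 ≤ U1 := hU1d ▸ hUi 1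
  have hU1' : U1 ≤ 1 := hU1d ▸ hUi1 1
  have hdis := fun d d' => dis (q := q) ht0 hU0 hU0' hU1 hg0 he he1 hsep hqg d d'
  have hdisy : ∀ d d' : Fin 2 × Fin 2 × Fin q, d ≠ d' → hi t0 tl U0 U1 g d * y < lo t0 tl U0 U1 g d' * y ∨
      hi t0 tl U0 U1 g d' * y < lo t0 tl U0 U1 g d * y := by
    intro d d' hd
    rcases hdis d d' hd with h | h
    · exact Or.inl (mul_lt_mul_of_pos_right h hy)
    · exact Or.inr (mul_lt_mul_of_pos_right h hy)
  have hlopos : ∀ d : Fin 2 × Fin 2 × Fin q, 0 < lo t0 tl U0 U1 g d := fun d =>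
    (hg0.trans_le (Pz_nonneg ht0 htl0 (by linarith) (by linarith) hg0 _ _)).trans_le (lo_ge hg0 d)
  have hhile : ∀ d : Fin 2 × Fin 2 × Fin q, hi t0 tl U0 U1 g d ≤ 4 * tl := fun d => by
    have h1 := hi_le (t1 := tl) (U0 := U0) (U1 := U1) hg0 hqg d
    have h2 := Pz_le (g := g) ht0 htl0 (by linarith : 0 ≤ U0) hU0' (by linarith : 0 ≤ U1) hU1' d.1 d.2.1
    have h3 : e / 16 * t0 ≤ 1 * t0 := mul_le_mul_of_nonneg_right (by linarith) ht0.le
    linarith
  obtain ⟨H, hHd⟩ : ∃ H, H = 16 * tl * y := ⟨_, rfl⟩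
  have hH : 0 < H := by rw [hHd]; positivity
  have hal : ∀ v : ℝ, v / (16 * tl) * H = v * y := fun v => by
    rw [hHd]
    field_simp
  obtain ⟨g', hgd⟩ : ∃ g', g' = c1 * τ / (16 * tl) := ⟨_, rfl⟩
  have hg0' : 0 < g' := by rw [hgd]; positivity
  have hgH : g' * H = c1 * τ * y := by
    rw [hgd, hal]
  have hcount := hxx (fun i => ρ (f i)) (fun i => by rw [hQ0]; exact hρ4 (f i))
    (fun i => lo t0 tl U0 U1 g (f i) / (16 * tl)) (fun i => hi t0 tl U0 U1 g (f i) / (16 * tl)) g' H hg0'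
    (fun i => by
      refine ⟨div_pos (hlopos _) (by positivity), ?_, ?_⟩
      · rw [hgd, ← add_div]
        refine div_le_div_of_nonneg_right ?_ (by positivity)
        have h1 : c1 * τ ≤ c1 * t0 := mul_le_mul_of_nonneg_left hτ0 hc1.le
        unfold hi lo
        linarith
      · rw [div_lt_one (by positivity)]
        linarith [hhile (f i)])
    (fun i j hij => by
      rcases hdis (f i) (f j) (fun h => hij (f.injective h)) with h | h
      · exact Or.inl (div_lt_div_of_pos_right h (by positivity))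
      · exact Or.inr (div_lt_div_of_pos_right h (by positivity)))
    (by
      rw [hHd]
      refine mul_le_mul_of_nonneg_right ?_ hy.le
      rw [div_le_iff₀ hlam] at hC2
      nlinarith)
    (by
      rw [hgH]
      have h1 : (1 : ℝ) ≤ 2 ^ D := one_le_pow₀ (by norm_num)
      have h2 : c1 * B ≤ c1 * (τ * y) := by
        refine mul_le_mul_of_nonneg_left (hB.trans ?_) hc1.le
        exact mul_le_mul_of_nonneg_left hlx1 hτ.le
      nlinarith)
    (by
      rw [hgH]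
      obtain ⟨z, hz⟩ : ∃ z, z = tl * Real.log M := ⟨_, rfl⟩
      rw [← hz] at htl3
      have hz1 : 32 ≤ z := by
        have h1 : τ * Real.log M ≤ tl * Real.log M := mul_le_mul_of_nonneg_right htl1 hlM
        linarith
      have hHz : H ≤ z ^ 2 := by
        have h1 : H ≤ 32 * z := by
          rw [hHd, hz]
          have h2 := mul_le_mul_of_nonneg_left hlx2 (show 0 ≤ 16 * tl by positivity)
          linarith
        nlinarith
      have hlz : 0 ≤ Real.log z := Real.log_nonneg (by linarith)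
      have hH1 : 1 ≤ H := by
        have h2 : 32 ≤ tl * y := by
          have h3 : tl * Real.log M ≤ tl * y := mul_le_mul_of_nonneg_left hlx1 htl0.le
          linarith
        rw [hHd]
        linarith
      have h1 : Real.log H ^ D ≤ (2 * Real.log z) ^ D := by
        refine pow_le_pow_left₀ (Real.log_nonneg hH1) ?_ D
        have h2 := Real.log_le_log hH hHz
        rw [Real.log_pow] at h2
        exact_mod_cast h2
      rw [mul_pow] at h1
      have h2 : H0 * Real.log H ^ D ≤ H0 * 2 ^ D * Real.log z ^ D := by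
        have := mul_le_mul_of_nonneg_left h1 (by linarith : 0 ≤ H0)
        linarith
      have h3 : H0 * 2 ^ D * Real.log z ^ D ≤ B * c1 * Real.log z ^ D :=
        mul_le_mul_of_nonneg_right hB3 (pow_nonneg hlz D)
      have h4 : c1 * (B * Real.log z ^ D) ≤ c1 * (τ * Real.log M) := mul_le_mul_of_nonneg_left htl3 hc1.le
      have h5 : c1 * (τ * Real.log M) ≤ c1 * (τ * y) :=
        mul_le_mul_of_nonneg_left (mul_le_mul_of_nonneg_left hlx1 hτ.le) hc1.le
      linarith)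
  have hgHy : g' * H / y = c1 * τ := by
    rw [hgH]
    field_simp
  rw [hgHy] at hcount
  have hfin := hwin (fun n => ∃ i : Fin 2, Str K L s (Q i) (w i) (u i) (t i * Real.log (Nat.nth Nat.Prime n)) e0 n)
    (δ * (c1 * τ) ^ D) _ (by positivity) hcount (by
      intro N hN
      rw [mem_filter, mem_range, Nat.lt_succ_iff] at hN
      obtain ⟨h1, h2, h3, h4⟩ := hN
      have hN1 : (N : ℝ) ≤ T' * X := (Nat.le_floor_iff (by positivity)).1 h1
      have hHy : H ≤ y := by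
        rw [hHd]
        rw [div_le_iff₀ hlam] at hC2
        have h7 : 16 * tl ≤ 1 := by nlinarith
        nlinarith
      have hHH : (g + tl + t0 + e / 16 * t0) * y ≤ H := by
        rw [hHd]
        refine mul_le_mul_of_nonneg_right ?_ hy.le
        have h5 : e / 16 * t0 ≤ 1 * t0 := mul_le_mul_of_nonneg_right (by linarith) ht0.le
        linarith
      have hhits := win hK Q w ht0 htl0 hU0 hU0' hU1 hU1' hg0 he he1 hsep hqg hy hHH ρ hρ1 hρ2 hρ3
        (Q0 := Q0) (by rw [hQ0]; exact Dvd.intro _ rfl)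
        (by rw [hQ0]; exact (Dvd.intro _ rfl : Q 0 ∣ Q 0 * Q 1).trans (Dvd.intro_left _ rfl))
        (by rw [hQ0]; exact (Dvd.intro_left _ rfl : Q 1 ∣ Q 0 * Q 1).trans (Dvd.intro_left _ rfl)) N
        (fun y' hy' hp => by
          obtain ⟨i, h5, h6, h7⟩ := h3 y' hy' hp
          rw [hal] at h5 h6
          exact ⟨f i, h5, h6, h7⟩)
        ((univ.filter (fun d : Fin m => ∃ y' : ℕ, lo t0 tl U0 U1 g (f d) / (16 * tl) * H ≤ (y' : ℝ) ∧
          (y' : ℝ) ≤ hi t0 tl U0 U1 g (f d) / (16 * tl) * H ∧ (N + y').Prime)).map f.toEmbedding)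
        (by rw [card_map]; exact h4)
        (fun d hd => by
          rw [Finset.mem_map] at hd
          obtain ⟨i, hid, rfl⟩ := hd
          obtain ⟨y', h5, h6, h7⟩ := (mem_filter.1 hid).2
          rw [hal] at h5 h6
          exact ⟨y', h5, h6, h7⟩) hdisy
      refine ⟨hN1, ?_⟩
      have hPN : ∀ a b, (N : ℝ) ≤ N + Pz t0 tl U0 U1 g a b * y := fun a b => by
        have := Pz_nonneg ht0 htl0 (by linarith : 0 ≤ U0) (by linarith : 0 ≤ U1) hg0 a b
        have := mul_nonneg (hg0.le.trans this) hy.le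
        linarith
      have hPH : ∀ a b, N + (Pz t0 tl U0 U1 g a b + e / 16 * t0) * y ≤ N + H := fun a b => by
        have h5 := Pz_le (g := g) ht0 htl0 (by linarith : 0 ≤ U0) hU0' (by linarith : 0 ≤ U1) hU1' a b
        have h6 := mul_le_mul_of_nonneg_right (by linarith : Pz t0 tl U0 U1 g a b + e / 16 * t0 ≤
          g + tl + t0 + e / 16 * t0) hy.le
        linarith
      have hlg : ∀ n : ℕ, (N : ℝ) ≤ Nat.nth Nat.Prime n → (Nat.nth Nat.Prime n : ℝ) ≤ N + H →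
          |Real.log (Nat.nth Nat.Prime n) - y| ≤ e / 4 * y := fun n h5 h6 =>
        hnear (Nat.nth Nat.Prime n) (h2.trans h5) (by linarith)
      rcases hhits with ⟨a, n, hn⟩ | ⟨n, hn⟩
      · have h5 := (hn.2 0 (by omega)).1
        rw [Nat.sub_zero] at h5
        have h6 : (N : ℝ) ≤ Nat.nth Nat.Prime n := (hPN a 0).trans h5.1
        have h7 : (Nat.nth Nat.Prime n : ℝ) ≤ N + H := h5.2.1.trans (hPH a 0)
        refine ⟨n, ⟨0, ?_⟩, by exact_mod_cast h6, h7.trans (by linarith)⟩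
        rw [← ht0d]
        refine (str_of_nd hK (mul_pos ht0 hy) he he1 (hu0 0) (hu1 0) ?_ ?_ ?_ ht0 (hlg n h6 h7) hn).mono
          (mul_nonneg ht0.le (Real.log_natCast_nonneg _)) hee
        · rw [← hU0d]
          unfold Pz
          simp only [Fin.val_zero, Fin.val_one, Nat.cast_zero, Nat.cast_one]
          ring
        · exact le_of_eq (by ring)
        · exact le_of_eq (by ring)
      · have h5 := (hn.2 0 (by omega)).1
        rw [Nat.sub_zero] at h5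
        have h6 : (N : ℝ) ≤ Nat.nth Nat.Prime n := (hPN 0 0).trans h5.1
        have h7 : (Nat.nth Nat.Prime n : ℝ) ≤ N + H := h5.2.1.trans (hPH 0 1)
        refine ⟨n, ⟨1, ?_⟩, by exact_mod_cast h6, h7.trans (by linarith)⟩
        have h8 : (U0 * t0 + e / 16 * t0) * y ≤ e / 16 * (tl * y) := by
          have h9 : 32 * t0 ≤ e * tl := by
            have h10 := hsep
            rw [div_mul_eq_mul_div, div_le_iff₀ he] at h10
            linarith
          have h10 : U0 * t0 ≤ 1 * t0 := mul_le_mul_of_nonneg_right hU0' ht0.le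
          have h11 : e / 16 * t0 ≤ 1 * t0 := mul_le_mul_of_nonneg_right (by linarith) ht0.le
          have h12 := mul_le_mul_of_nonneg_right (by linarith : U0 * t0 + e / 16 * t0 ≤ e / 16 * tl) hy.le
          linarith
        rw [← htl]
        refine (str_of_nd hK (mul_pos htl0 hy) he he1 (hu0 1) (hu1 1) ?_ ?_ ?_ htl0 (hlg n h6 h7) hn).mono
          (mul_nonneg htl0.le (Real.log_natCast_nonneg _)) hee
        · rw [← hU1d]
          unfold Pz
          simp only [Fin.val_zero, Fin.val_one, Nat.cast_zero, Nat.cast_one]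
          ring
        · unfold Pz
          simp only [Fin.val_zero, Fin.val_one, Nat.cast_zero, Nat.cast_one]
          linarith
        · unfold Pz
          simp only [Fin.val_zero, Fin.val_one, Nat.cast_zero, Nat.cast_one]
          linarith)
  have h7 := ncard_ex_le M (fun (i : Fin 2) n =>
    Str K L s (Q i) (w i) (u i) (t i * Real.log (Nat.nth Nat.Prime n)) e0 n)
  rw [Fin.sum_univ_two] at h7
  have h8 := hcnt 0
  have h9 := hcnt 1
  have h10 : d0 * (δ * (c1 * τ) ^ D) * M = 2 * (d0 * (δ * c1 ^ D) / 2 * τ ^ D * M) := by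
    rw [mul_pow]
    ring
  rw [h10] at hfin
  linarith

/-- **two strings of consecutive primes in any two classes, at any distance, at one of two scales** -/
theorem strs (K : ℕ) (hK : 1 ≤ K) : ∃ D : ℕ, ∀ L s : ℕ, 0 < L → Nat.Coprime s L → ∀ Q : Fin 2 → ℕ, (∀ i, 0 < Q i) →
    (∀ i, Nat.Coprime (Q i) L) → (∀ i j, i ≠ j → Nat.Coprime (Q i) (Q j)) → ∀ e : ℝ, 0 < e →
    ∃ C d B : ℝ, 1 ≤ C ∧ 0 < d ∧ ∀ (M : ℕ) (τ : ℝ) (t : Fin 2 → ℝ), ChainU C B D M τ t →
      ∃ i, ∀ w : Fin 2 → ℕ, (∀ j, Nat.Coprime (w j) (Q i)) → ∀ u : ℝ, 0 ≤ u → u ≤ 1 →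
        d * τ ^ D * M ≤
          (({n : ℕ | n < M ∧ Str K L s (Q i) w u (t i * Real.log (Nat.nth Nat.Prime n)) e n}).ncard : ℝ) :=
  strsH thmH winU K hK

end Pool.Agent.H48.STS
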